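import Mathlib

open Filter Topology Set

namespace Pool.Agent.Results.MP_247194_an.GlobalConvergence

/-- A positive solution of `x_{n+1} = 1/x_{n-k} + 1/x_{n-l}`, written with indices shifted by
`m = max k l`, so that `X i = x_{i-m}` : the initial values are `X 0, ..., X m`. -/
def IsSolution (k l : ℕ) (X : ℕ → ℝ) : Prop :=
  (∀ i ≤ max k l, 0 < X i) ∧
    ∀ n, X (n + max k l + 1) = 1 / X (n + max k l - k) + 1 / X (n + max k l - l)

theorem bounds {k l : ℕ} {X : ℕ → ℝ} (h : IsSolution k l X) :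
    ∃ a : ℝ, 0 < a ∧ ∀ n, a ≤ X n ∧ X n ≤ 2 / a := by
  obtain ⟨hpos, hrec⟩ := h
  obtain ⟨i0, hi0, hmin⟩ := Finset.exists_min_image (Finset.range (max k l + 1)) X ⟨0, by simp⟩
  obtain ⟨i1, hi1, hmax⟩ := Finset.exists_max_image (Finset.range (max k l + 1)) X ⟨0, by simp⟩
  have p0 : 0 < X i0 := hpos i0 (by simpa [Nat.lt_succ_iff] using hi0)
  have p1 : 0 < X i1 := hpos i1 (by simpa [Nat.lt_succ_iff] using hi1)
  refine ⟨min (X i0) (2 / X i1), lt_min p0 (by positivity), ?_⟩
  set a := min (X i0) (2 / X i1) with ha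
  have apos : 0 < a := lt_min p0 (by positivity)
  have ha1 : a ≤ X i0 := min_le_left _ _
  have ha2 : a ≤ 2 / X i1 := min_le_right _ _
  intro n
  induction n using Nat.strong_induction_on with
  | _ n ih =>
    by_cases hn : n ≤ max k l
    · have hm : n ∈ Finset.range (max k l + 1) := by simpa [Nat.lt_succ_iff] using hn
      refine ⟨ha1.trans (hmin n hm), (hmax n hm).trans ?_⟩
      rw [le_div_iff₀ apos]
      rw [le_div_iff₀ p1] at ha2
      linarith [mul_comm a (X i1)]
    · obtain ⟨t, rfl⟩ : ∃ t, n = t + max k l + 1 := ⟨n - (max k l + 1), by omega⟩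
      rw [hrec t]
      have h1 := ih (t + max k l - k) (by omega)
      have h2 := ih (t + max k l - l) (by omega)
      have q1 : 0 < X (t + max k l - k) := lt_of_lt_of_le apos h1.1
      have q2 : 0 < X (t + max k l - l) := lt_of_lt_of_le apos h2.1
      have e : 2 / a = 1 / a + 1 / a := by ring
      have e2 : a = 1 / (2 / a) + 1 / (2 / a) := by field_simp; norm_num
      constructor
      · calc a = 1 / (2 / a) + 1 / (2 / a) := e2
          _ ≤ _ := add_le_add (one_div_le_one_div_of_le q1 h1.2) (one_div_le_one_div_of_le q2 h2.2)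
      · rw [e]
        exact add_le_add (one_div_le_one_div_of_le apos h1.1) (one_div_le_one_div_of_le apos h2.1)

/-- Every cluster value is the start of a backward limiting sequence. -/
theorem backward {k l : ℕ} {X : ℕ → ℝ} (h : IsSolution k l X) {s : ℝ}
    (hs : MapClusterPt s atTop X) :
    ∃ Y : ℕ → ℝ, Y 0 = s ∧ (∀ j, MapClusterPt (Y j) atTop X) ∧
      ∀ j, Y j = 1 / Y (j + (k + 1)) + 1 / Y (j + (l + 1)) := by
  obtain ⟨a, apos, hb⟩ := bounds h
  obtain ⟨ψ, hψ, hlim⟩ := hs.tendsto_subseq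
  have hK : IsCompact (Set.pi univ (fun _ : ℕ => Icc a (2 / a))) :=
    isCompact_univ_pi (fun _ => isCompact_Icc)
  obtain ⟨Y, -, φ, hφ, hY⟩ := hK.tendsto_subseq
    (x := fun n => (fun j : ℕ => X (ψ n - j))) (fun n => by
      intro j _
      exact ⟨(hb _).1, (hb _).2⟩)
  rw [tendsto_pi_nhds] at hY
  have hinf : Tendsto (fun n => ψ (φ n)) atTop atTop :=
    hψ.tendsto_atTop.comp hφ.tendsto_atTop
  have hinfj : ∀ j, Tendsto (fun n => ψ (φ n) - j) atTop atTop := fun j =>
    (tendsto_sub_atTop_nat j).comp hinf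
  have hYpos : ∀ j, 0 < Y j := fun j =>
    lt_of_lt_of_le apos (ge_of_tendsto (hY j) (Eventually.of_forall fun n => (hb _).1))
  refine ⟨Y, ?_, ?_, ?_⟩
  · have h1 : Tendsto (fun n => X (ψ (φ n))) atTop (𝓝 s) := hlim.comp hφ.tendsto_atTop
    have h2 := hY 0
    simp only [Function.comp_def, Nat.sub_zero] at h2
    exact tendsto_nhds_unique h2 h1
  · intro j
    have h1 : MapClusterPt (Y j) atTop (X ∘ fun n => ψ (φ n) - j) := (hY j).mapClusterPt
    exact MapClusterPt.of_comp (hinfj j) h1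
  · intro j
    have h1 : Tendsto (fun n => 1 / X (ψ (φ n) - (j + (k + 1))) + 1 / X (ψ (φ n) - (j + (l + 1))))
        atTop (𝓝 (1 / Y (j + (k + 1)) + 1 / Y (j + (l + 1)))) := by
      have t1 := (hY (j + (k + 1)))
      have t2 := (hY (j + (l + 1)))
      simp only [Function.comp_def] at t1 t2
      exact (tendsto_const_nhds.div t1 (hYpos _).ne').add (tendsto_const_nhds.div t2 (hYpos _).ne')
    have h2 : Tendsto (fun n => X (ψ (φ n) - j)) atTop (𝓝 (Y j)) := by
      have := hY j
      simpa only [Function.comp_def] using this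
    refine tendsto_nhds_unique h2 (h1.congr' ?_)
    filter_upwards [hinf.eventually_ge_atTop (j + max k l + 1)] with n hn
    have := h.2 (ψ (φ n) - j - (max k l + 1))
    have e1 : ψ (φ n) - j - (max k l + 1) + max k l + 1 = ψ (φ n) - j := by omega
    have e2 : ψ (φ n) - j - (max k l + 1) + max k l - k = ψ (φ n) - (j + (k + 1)) := by omega
    have e3 : ψ (φ n) - j - (max k l + 1) + max k l - l = ψ (φ n) - (j + (l + 1)) := by omega
    rw [e1, e2, e3] at this
    exact this.symm


/-- Cluster values stay in the invariant interval. -/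
theorem cluster_mem {X : ℕ → ℝ} {a : ℝ} (hb : ∀ n, a ≤ X n ∧ X n ≤ 2 / a) {s : ℝ}
    (hs : MapClusterPt s atTop X) : s ∈ Icc a (2 / a) := by
  obtain ⟨ψ, -, hlim⟩ := hs.tendsto_subseq
  exact ⟨ge_of_tendsto hlim (Eventually.of_forall fun n => (hb _).1),
    le_of_tendsto hlim (Eventually.of_forall fun n => (hb _).2)⟩

/-- The walk down the backward limiting sequence. -/
theorem walk {k l : ℕ} {Y : ℕ → ℝ} {S I : ℝ} (hI0 : 0 < I) (hSI : S * I = 2)
    (hYm : ∀ j, I ≤ Y j ∧ Y j ≤ S)
    (hYr : ∀ j, Y j = 1 / Y (j + (k + 1)) + 1 / Y (j + (l + 1))) (h0 : Y 0 = S) :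
    ∀ a b : ℕ, (Even (a + b) → Y (a * (k + 1) + b * (l + 1)) = S) ∧
      (¬ Even (a + b) → Y (a * (k + 1) + b * (l + 1)) = I) := by
  have hS0 : 0 < S := by
    have := hYm 0
    linarith [this.1, this.2]
  have hpos : ∀ j, 0 < Y j := fun j => lt_of_lt_of_le hI0 (hYm j).1
  have eI : 1 / I = S / 2 := by
    field_simp; linarith
  have eS : 1 / S = I / 2 := by
    field_simp; linarith
  have down : ∀ j, Y j = S → Y (j + (k + 1)) = I ∧ Y (j + (l + 1)) = I := by
    intro j hj
    have h1 := hYr j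
    have b1 : 1 / Y (j + (k + 1)) ≤ 1 / I := one_div_le_one_div_of_le hI0 (hYm _).1
    have b2 : 1 / Y (j + (l + 1)) ≤ 1 / I := one_div_le_one_div_of_le hI0 (hYm _).1
    rw [hj] at h1
    rw [eI] at b1 b2
    have c1 : 1 / Y (j + (k + 1)) = 1 / I := by rw [eI]; linarith
    have c2 : 1 / Y (j + (l + 1)) = 1 / I := by rw [eI]; linarith
    rw [one_div, one_div, inv_inj] at c1 c2
    exact ⟨c1, c2⟩
  have up : ∀ j, Y j = I → Y (j + (k + 1)) = S ∧ Y (j + (l + 1)) = S := by
    intro j hj
    have h1 := hYr j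
    have b1 : 1 / S ≤ 1 / Y (j + (k + 1)) := one_div_le_one_div_of_le (hpos _) (hYm _).2
    have b2 : 1 / S ≤ 1 / Y (j + (l + 1)) := one_div_le_one_div_of_le (hpos _) (hYm _).2
    rw [hj] at h1
    rw [eS] at b1 b2
    have c1 : 1 / Y (j + (k + 1)) = 1 / S := by rw [eS]; linarith
    have c2 : 1 / Y (j + (l + 1)) = 1 / S := by rw [eS]; linarith
    rw [one_div, one_div, inv_inj] at c1 c2
    exact ⟨c1, c2⟩
  have key : ∀ n a b : ℕ, a + b = n → (Even n → Y (a * (k + 1) + b * (l + 1)) = S) ∧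
      (¬ Even n → Y (a * (k + 1) + b * (l + 1)) = I) := by
    intro n
    induction n with
    | zero =>
      intro a b hab
      obtain ⟨rfl, rfl⟩ : a = 0 ∧ b = 0 := by omega
      simp [h0]
    | succ n ih =>
      intro a b hab
      rcases Nat.eq_zero_or_pos a with ha | ha
      · obtain ⟨b', rfl⟩ : ∃ b', b = b' + 1 := ⟨b - 1, by omega⟩
        have hi := ih a b' (by omega)
        have e : a * (k + 1) + (b' + 1) * (l + 1) = a * (k + 1) + b' * (l + 1) + (l + 1) := by ring
        rw [e, Nat.even_add_one]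
        exact ⟨fun h => (up _ (hi.2 h)).2, fun h => (down _ (hi.1 (not_not.mp h))).2⟩
      · obtain ⟨a', rfl⟩ : ∃ a', a = a' + 1 := ⟨a - 1, by omega⟩
        have hi := ih a' b (by omega)
        have e : (a' + 1) * (k + 1) + b * (l + 1) = a' * (k + 1) + b * (l + 1) + (k + 1) := by ring
        rw [e, Nat.even_add_one]
        exact ⟨fun h => (up _ (hi.2 h)).1, fun h => (down _ (hi.1 (not_not.mp h))).1⟩
  intro a b
  exact key (a + b) a b rfl

/-- The extreme cluster values of a solution have product two. -/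
theorem extremes {k l : ℕ} {X : ℕ → ℝ} (h : IsSolution k l X) :
    ∃ S I : ℝ, 0 < I ∧ S * I = 2 ∧ MapClusterPt S atTop X ∧ MapClusterPt I atTop X ∧
      ∀ s, MapClusterPt s atTop X → I ≤ s ∧ s ≤ S := by
  obtain ⟨a, apos, hb⟩ := bounds h
  have hcl : IsClosed {s : ℝ | MapClusterPt s atTop X} := isClosed_setOfPred_clusterPt
  have hsub : {s : ℝ | MapClusterPt s atTop X} ⊆ Icc a (2 / a) := fun s hs => cluster_mem hb hs
  have hcomp : IsCompact {s : ℝ | MapClusterPt s atTop X} := isCompact_Icc.of_isClosed_subset hcl hsub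
  have hne : {s : ℝ | MapClusterPt s atTop X}.Nonempty := by
    obtain ⟨s, -, hs⟩ := (isCompact_Icc (a := a) (b := 2 / a)).exists_mapClusterPt
      (f := atTop) (u := X) (tendsto_principal.mpr (Eventually.of_forall fun n => hb n))
    exact ⟨s, hs⟩
  obtain ⟨S, hS, hSg⟩ := hcomp.exists_isGreatest hne
  obtain ⟨I, hI, hIl⟩ := hcomp.exists_isLeast hne
  have hIpos : 0 < I := lt_of_lt_of_le apos (hsub hI).1
  have hSpos : 0 < S := lt_of_lt_of_le apos (hsub hS).1
  refine ⟨S, I, hIpos, ?_, hS, hI, fun s hs => ⟨hIl hs, hSg hs⟩⟩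
  obtain ⟨Y, hY0, hYc, hYr⟩ := backward h hS
  obtain ⟨Z, hZ0, hZc, hZr⟩ := backward h hI
  have u1 : S ≤ 2 / I := by
    rw [← hY0, hYr 0]
    have e : 2 / I = 1 / I + 1 / I := by ring
    rw [e]
    exact add_le_add (one_div_le_one_div_of_le hIpos (hIl (hYc _)))
      (one_div_le_one_div_of_le hIpos (hIl (hYc _)))
  have u2 : 2 / S ≤ I := by
    rw [← hZ0, hZr 0]
    have e : 2 / S = 1 / S + 1 / S := by ring
    rw [e]
    have z1 : 0 < Z (0 + (k + 1)) := lt_of_lt_of_le hIpos (hIl (hZc _))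
    have z2 : 0 < Z (0 + (l + 1)) := lt_of_lt_of_le hIpos (hIl (hZc _))
    exact add_le_add (one_div_le_one_div_of_le z1 (hSg (hZc _)))
      (one_div_le_one_div_of_le z2 (hSg (hZc _)))
  rw [le_div_iff₀ hIpos] at u1
  rw [div_le_iff₀ hSpos] at u2
  linarith [mul_comm S I]

/-- Number theory: unequal two-adic valuations give a collision of opposite parity. -/
theorem collision {p q : ℕ} (hp : 0 < p)
    (hne : padicValNat 2 p < padicValNat 2 q) :
    ∃ a b : ℕ, Even a ∧ ¬ Even b ∧ a * p = b * q := by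
  obtain ⟨p0, hp0⟩ : 2 ^ padicValNat 2 p ∣ p := pow_padicValNat_dvd
  obtain ⟨q0, hq0⟩ : 2 ^ padicValNat 2 q ∣ q := pow_padicValNat_dvd
  obtain ⟨t, ht⟩ : ∃ t, padicValNat 2 q = padicValNat 2 p + 1 + t :=
    ⟨padicValNat 2 q - (padicValNat 2 p + 1), by omega⟩
  refine ⟨2 * (2 ^ t * q0), p0, even_two_mul _, ?_, ?_⟩
  · intro he
    obtain ⟨c, hc⟩ := he
    have hd : 2 ^ (padicValNat 2 p + 1) ∣ p := by
      refine ⟨c, ?_⟩
      conv_lhs => rw [hp0, hc]
      ring
    exact pow_succ_padicValNat_not_dvd hp.ne' hd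
  · conv_lhs => rw [hp0]
    conv_rhs => rw [hq0, ht]
    ring

theorem converge {k l : ℕ} {X : ℕ → ℝ} (h : IsSolution k l X)
    (hne : padicValNat 2 (k + 1) ≠ padicValNat 2 (l + 1)) : Tendsto X atTop (𝓝 (√2)) := by
  obtain ⟨S, I, hI0, hSI, hS, hI, hall⟩ := extremes h
  obtain ⟨Y, hY0, hYc, hYr⟩ := backward h hS
  have hw := walk (k := k) (l := l) hI0 hSI (fun j => hall _ (hYc j)) hYr hY0
  have hSeq : S = I := by
    rcases lt_or_gt_of_ne hne with hlt | hlt
    · obtain ⟨a, b, ha, hb, hab⟩ := collision (Nat.succ_pos k) hlt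
      have h1 := (hw a 0).1 (by simpa using ha)
      have h2 := (hw 0 b).2 (by simpa using hb)
      simp only [Nat.zero_mul, Nat.add_zero, Nat.zero_add] at h1 h2
      rw [← h1, ← h2]
      exact congrArg Y hab
    · obtain ⟨a, b, ha, hb, hab⟩ := collision (Nat.succ_pos l) hlt
      have h1 := (hw 0 a).1 (by simpa using ha)
      have h2 := (hw b 0).2 (by simpa using hb)
      simp only [Nat.zero_mul, Nat.add_zero, Nat.zero_add] at h1 h2
      rw [← h1, ← h2]
      exact congrArg Y hab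
  subst hSeq
  have hSq : √2 = S := by
    rw [show (2 : ℝ) = S ^ 2 by rw [← hSI]; ring]
    exact Real.sqrt_sq hI0.le
  obtain ⟨a, apos, hb⟩ := bounds h
  refine (isCompact_Icc (a := a) (b := 2 / a)).tendsto_nhds_of_unique_mapClusterPt
    (Eventually.of_forall fun n => hb n) ?_
  intro y _ hy
  rw [hSq]
  exact le_antisymm (hall y hy).2 (hall y hy).1

/-- The explicit periodic solution when the valuations agree. -/
theorem periodic {k l : ℕ} (heq : padicValNat 2 (k + 1) = padicValNat 2 (l + 1)) :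
    ∃ X : ℕ → ℝ, IsSolution k l X ∧ ¬ Tendsto X atTop (𝓝 (√2)) := by
  set s := padicValNat 2 (k + 1) with hs
  obtain ⟨p0, hp0⟩ : 2 ^ s ∣ k + 1 := pow_padicValNat_dvd
  obtain ⟨q0, hq0⟩ : 2 ^ s ∣ l + 1 := by rw [heq]; exact pow_padicValNat_dvd
  have op : ¬ Even p0 := by
    rintro ⟨c, hc⟩
    have hd : 2 ^ (padicValNat 2 (k + 1) + 1) ∣ k + 1 := by
      refine ⟨c, ?_⟩
      rw [← hs]
      conv_lhs => rw [hp0, hc]
      ring
    exact pow_succ_padicValNat_not_dvd (Nat.succ_ne_zero k) hd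
  have oq : ¬ Even q0 := by
    rintro ⟨c, hc⟩
    have hd : 2 ^ (padicValNat 2 (l + 1) + 1) ∣ l + 1 := by
      refine ⟨c, ?_⟩
      rw [← heq]
      conv_lhs => rw [hq0, hc]
      ring
    exact pow_succ_padicValNat_not_dvd (Nat.succ_ne_zero l) hd
  have h2s : 0 < 2 ^ s := by positivity
  refine ⟨fun n => if Even (n / 2 ^ s) then 1 else 2, ⟨?_, ?_⟩, ?_⟩
  · intro i _
    dsimp only
    split_ifs <;> norm_num
  · intro n
    have f1 : (n + max k l + 1) / 2 ^ s = (n + max k l - k) / 2 ^ s + p0 := by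
      have : n + max k l + 1 = n + max k l - k + 2 ^ s * p0 := by omega
      rw [this, Nat.add_mul_div_left _ _ h2s]
    have f2 : (n + max k l + 1) / 2 ^ s = (n + max k l - l) / 2 ^ s + q0 := by
      have : n + max k l + 1 = n + max k l - l + 2 ^ s * q0 := by omega
      rw [this, Nat.add_mul_div_left _ _ h2s]
    dsimp only
    by_cases hc : Even ((n + max k l + 1) / 2 ^ s)
    · have g1 : ¬ Even ((n + max k l - k) / 2 ^ s) := by
        intro hh; rw [f1, Nat.even_add] at hc; exact op (hc.mp hh)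
      have g2 : ¬ Even ((n + max k l - l) / 2 ^ s) := by
        intro hh; rw [f2, Nat.even_add] at hc; exact oq (hc.mp hh)
      rw [if_pos hc, if_neg g1, if_neg g2]; norm_num
    · have g1 : Even ((n + max k l - k) / 2 ^ s) := by
        by_contra hh; rw [f1, Nat.even_add] at hc; exact hc ⟨fun h' => absurd h' hh, fun h' => absurd h' op⟩
      have g2 : Even ((n + max k l - l) / 2 ^ s) := by
        by_contra hh; rw [f2, Nat.even_add] at hc; exact hc ⟨fun h' => absurd h' hh, fun h' => absurd h' oq⟩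
      rw [if_neg hc, if_pos g1, if_pos g2]; norm_num
  · intro hT
    have hsub : Tendsto (fun n : ℕ => 2 ^ s * (2 * n)) atTop atTop := by
      refine tendsto_atTop_mono (fun n => ?_) tendsto_id
      have : 1 ≤ 2 ^ s := h2s
      simp only [id]
      nlinarith
    have h1 := hT.comp hsub
    have h2 : (fun n : ℕ => if Even (n / 2 ^ s) then (1 : ℝ) else 2) ∘ (fun n : ℕ => 2 ^ s * (2 * n))
        = fun _ => 1 := by
      funext n
      simp only [Function.comp]
      rw [Nat.mul_div_cancel_left _ h2s, if_pos (even_two_mul n)]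
    rw [h2] at h1
    have h3 := tendsto_nhds_unique h1 tendsto_const_nhds
    have h4 : (√2) ^ 2 = 2 := Real.sq_sqrt (by norm_num)
    rw [h3] at h4
    norm_num at h4

theorem repr_large {a b : ℕ} (ha : 0 < a) (hab : Nat.Coprime a b) {t : ℕ} (ht : a * b ≤ t) :
    ∃ i j : ℕ, t = i * a + j * b := by
  obtain ⟨m, hm, hmod⟩ := Nat.exists_mul_mod_eq_of_coprime t (Nat.Coprime.symm hab) ha.ne'
  have hle : b * m ≤ t := by
    calc b * m ≤ b * a := Nat.mul_le_mul_left _ hm.le
      _ = a * b := Nat.mul_comm _ _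
      _ ≤ t := ht
  have hd : a ∣ t - b * m := (Nat.modEq_iff_dvd' hle).mp hmod
  obtain ⟨i, hi⟩ := hd
  refine ⟨i, m, ?_⟩
  have : t = a * i + b * m := by omega
  rw [this]; ring

/-- Forward invariance of lower bounds. -/
theorem forward {a b N0 : ℕ} (ha : 0 < a) (hb : 0 < b) {z : ℕ → ℝ}
    (hlow : ∀ n, N0 ≤ n → a ≤ n ∧ b ≤ n ∧ min (z (n - a)) (z (n - b)) ≤ z n)
    {n0 D : ℕ} (hD : a ≤ D) (hD' : b ≤ D) (hn0 : N0 ≤ n0 + D) {c : ℝ}
    (hw : ∀ i, n0 ≤ i → i < n0 + D → c ≤ z i) : ∀ i, n0 ≤ i → c ≤ z i := by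
  intro i
  induction i using Nat.strong_induction_on with
  | _ i ih =>
    intro hi
    by_cases h : i < n0 + D
    · exact hw i hi h
    · obtain ⟨h1, h2, h3⟩ := hlow i (by omega)
      exact (le_min (ih (i - a) (by omega) (by omega)) (ih (i - b) (by omega) (by omega))).trans h3

theorem mean_conv {a b N0 : ℕ} (ha : 0 < a) (hb : 0 < b) (hab : Nat.Coprime a b) {z : ℕ → ℝ}
    {α β : ℝ} (hz : ∀ n, α ≤ z n ∧ z n ≤ β)
    (hlow : ∀ n, N0 ≤ n → a ≤ n ∧ b ≤ n ∧ min (z (n - a)) (z (n - b)) ≤ z n)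
    (hup : ∀ n, N0 ≤ n → z n ≤ (z (n - a) + z (n - b)) / 2) :
    ∃ L, α ≤ L ∧ Tendsto z atTop (𝓝 L) := by
  have hmem : ∀ s, MapClusterPt s atTop z → s ∈ Icc α β := by
    intro s hs
    obtain ⟨ψ, -, hlim⟩ := hs.tendsto_subseq
    exact ⟨ge_of_tendsto hlim (Eventually.of_forall fun n => (hz _).1),
      le_of_tendsto hlim (Eventually.of_forall fun n => (hz _).2)⟩
  have hcl : IsClosed {s : ℝ | MapClusterPt s atTop z} := isClosed_setOfPred_clusterPt
  have hcomp : IsCompact {s : ℝ | MapClusterPt s atTop z} :=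
    isCompact_Icc.of_isClosed_subset hcl hmem
  have hne : {s : ℝ | MapClusterPt s atTop z}.Nonempty := by
    obtain ⟨s, -, hs⟩ := (isCompact_Icc (a := α) (b := β)).exists_mapClusterPt
      (f := atTop) (u := z) (tendsto_principal.mpr (Eventually.of_forall fun n => hz n))
    exact ⟨s, hs⟩
  obtain ⟨S, hS, hSg⟩ := hcomp.exists_isGreatest hne
  refine ⟨S, (hmem S hS).1, ?_⟩
  obtain ⟨ψ, hψ, hlim⟩ := MapClusterPt.tendsto_subseq hS
  have hK : IsCompact (Set.pi univ (fun _ : ℕ => Icc α β)) :=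
    isCompact_univ_pi (fun _ => isCompact_Icc)
  obtain ⟨Y, -, φ, hφ, hY⟩ := hK.tendsto_subseq
    (x := fun n => (fun j : ℕ => z (ψ n - j))) (fun n => by
      intro j _
      exact hz _)
  rw [tendsto_pi_nhds] at hY
  have hY' : ∀ j, Tendsto (fun n => z (ψ (φ n) - j)) atTop (𝓝 (Y j)) := by
    intro j
    simpa only [Function.comp_def] using hY j
  have hinf : Tendsto (fun n => ψ (φ n)) atTop atTop :=
    hψ.tendsto_atTop.comp hφ.tendsto_atTop
  have hinfj : ∀ j, Tendsto (fun n => ψ (φ n) - j) atTop atTop := fun j =>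
    (tendsto_sub_atTop_nat j).comp hinf
  have hYle : ∀ j, Y j ≤ S := by
    intro j
    have h1 : MapClusterPt (Y j) atTop (z ∘ fun n => ψ (φ n) - j) := (hY' j).mapClusterPt
    exact hSg (MapClusterPt.of_comp (hinfj j) h1)
  have hY0 : Y 0 = S := by
    have h1 : Tendsto (fun n => z (ψ (φ n))) atTop (𝓝 S) := hlim.comp hφ.tendsto_atTop
    have h2 := hY' 0
    simp only [Nat.sub_zero] at h2
    exact tendsto_nhds_unique h2 h1
  have hYr : ∀ j, Y j ≤ (Y (j + a) + Y (j + b)) / 2 := by
    intro j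
    refine le_of_tendsto_of_tendsto (hY' j) (((hY' (j + a)).add (hY' (j + b))).div_const 2) ?_
    filter_upwards [hinf.eventually_ge_atTop (j + N0 + a + b)] with n hn
    have := hup (ψ (φ n) - j) (by omega)
    rwa [Nat.sub_sub, Nat.sub_sub] at this
  have hstep : ∀ j, Y j = S → Y (j + a) = S ∧ Y (j + b) = S := by
    intro j hj
    have h1 := hYr j
    have h2 := hYle (j + a)
    have h3 := hYle (j + b)
    constructor <;> linarith
  have hall : ∀ i j, Y (i * a + j * b) = S := by
    intro i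
    induction i with
    | zero =>
      intro j
      induction j with
      | zero => simpa using hY0
      | succ j ih =>
        have e : 0 * a + (j + 1) * b = 0 * a + j * b + b := by ring
        rw [e]; exact (hstep _ ih).2
    | succ i ih =>
      intro j
      have e : (i + 1) * a + j * b = i * a + j * b + a := by ring
      rw [e]; exact (hstep _ (ih j)).1
  -- all later values are near `S`
  have hge : ∀ ε > 0, ∀ᶠ n in atTop, S - ε ≤ z n := by
    intro ε hε
    have hev : ∀ t ∈ Finset.range (a + b), ∀ᶠ n in atTop, S - ε ≤ z (ψ (φ n) - (a * b + t)) := by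
      intro t _
      obtain ⟨i, j, hij⟩ := repr_large ha hab (t := a * b + t) (by omega)
      have h1 := hY' (a * b + t)
      rw [hij, hall i j, ← hij] at h1
      exact h1.eventually_const_le (by linarith)
    have hev2 := (Filter.eventually_all_finset (Finset.range (a + b))).mpr hev
    obtain ⟨n, hn1, hn2⟩ := (hev2.and (hinf.eventually_ge_atTop (N0 + a * b + a + b))).exists
    refine eventually_atTop.mpr ⟨ψ (φ n) - (a * b + (a + b - 1)), fun i hi => ?_⟩
    refine forward ha hb hlow (n0 := ψ (φ n) - (a * b + (a + b - 1))) (D := a + b)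
      (by omega) (by omega) (by omega) (fun i' h1 h2 => ?_) i hi
    have := hn1 (ψ (φ n) - a * b - i') (Finset.mem_range.mpr (by omega))
    have e : ψ (φ n) - (a * b + (ψ (φ n) - a * b - i')) = i' := by omega
    rwa [e] at this
  refine (isCompact_Icc (a := α) (b := β)).tendsto_nhds_of_unique_mapClusterPt
    (Eventually.of_forall fun n => hz n) ?_
  intro y _ hy
  refine le_antisymm (hSg hy) ?_
  refine le_of_forall_pos_sub_le fun ε hε => ?_
  obtain ⟨χ, hχ, hl⟩ := hy.tendsto_subseq
  exact ge_of_tendsto hl (hχ.tendsto_atTop.eventually (hge ε hε))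

theorem classes {g : ℕ} (hg : 0 < g) {W : ℕ → ℝ} {L : ℝ}
    (h : ∀ r < g, Tendsto (fun j => W (r + g * j)) atTop (𝓝 L)) : Tendsto W atTop (𝓝 L) := by
  rw [Metric.tendsto_atTop]
  intro ε hε
  have hev : ∀ r ∈ Finset.range g, ∀ᶠ j in atTop, dist (W (r + g * j)) L < ε := by
    intro r hr
    exact (Metric.tendsto_nhds.mp (h r (Finset.mem_range.mp hr))) ε hε
  obtain ⟨J, hJ⟩ := eventually_atTop.mp ((Filter.eventually_all_finset (Finset.range g)).mpr hev)
  refine ⟨g * J, fun n hn => ?_⟩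
  have h1 : J ≤ n / g := by
    rw [Nat.le_div_iff_mul_le hg]; linarith [mul_comm g J]
  have := hJ (n / g) h1 (n % g) (Finset.mem_range.mpr (Nat.mod_lt n hg))
  rwa [Nat.mod_add_div] at this

/-- Multiply the entries whose block number `n / g` is even by `c (n % g)`, divide the others. -/
noncomputable def scale (g : ℕ) (c : ℕ → ℝ) (X : ℕ → ℝ) : ℕ → ℝ :=
  fun n => if Even (n / g) then c (n % g) * X n else X n / c (n % g)

/-- The odd parts. -/
theorem odd_parts {k l : ℕ} (heq : padicValNat 2 (k + 1) = padicValNat 2 (l + 1)) :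
    ∃ g p q : ℕ, g = Nat.gcd (k + 1) (l + 1) ∧ 0 < g ∧ 0 < p ∧ 0 < q ∧ k + 1 = g * p ∧
      l + 1 = g * q ∧ ¬ Even p ∧ ¬ Even q ∧ Nat.Coprime p q := by
  have hg : 0 < Nat.gcd (k + 1) (l + 1) := Nat.gcd_pos_of_pos_left _ (Nat.succ_pos k)
  obtain ⟨p, hp⟩ := Nat.gcd_dvd_left (k + 1) (l + 1)
  obtain ⟨q, hq⟩ := Nat.gcd_dvd_right (k + 1) (l + 1)
  have hp0 : 0 < p := by
    rcases Nat.eq_zero_or_pos p with h | h
    · rw [h, Nat.mul_zero] at hp; omega
    · exact h
  have hq0 : 0 < q := by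
    rcases Nat.eq_zero_or_pos q with h | h
    · rw [h, Nat.mul_zero] at hq; omega
    · exact h
  have hc : Nat.Coprime p q := by
    have h1 := Nat.coprime_div_gcd_div_gcd hg
    have e1 : (k + 1) / Nat.gcd (k + 1) (l + 1) = p := Nat.div_eq_of_eq_mul_right hg hp
    have e2 : (l + 1) / Nat.gcd (k + 1) (l + 1) = q := Nat.div_eq_of_eq_mul_right hg hq
    rwa [e1, e2] at h1
  have hval : padicValNat 2 p = padicValNat 2 q := by
    have h1 : padicValNat 2 (k + 1) = padicValNat 2 (Nat.gcd (k + 1) (l + 1)) + padicValNat 2 p := by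
      conv_lhs => rw [hp]
      exact padicValNat.mul hg.ne' hp0.ne'
    have h2 : padicValNat 2 (l + 1) = padicValNat 2 (Nat.gcd (k + 1) (l + 1)) + padicValNat 2 q := by
      conv_lhs => rw [hq]
      exact padicValNat.mul hg.ne' hq0.ne'
    omega
  have hnot : ¬ (2 ∣ p ∧ 2 ∣ q) := by
    rintro ⟨h1, h2⟩
    have := Nat.dvd_gcd h1 h2
    rw [Nat.Coprime] at hc
    rw [hc] at this
    omega
  have key : ∀ a b : ℕ, 0 < a → padicValNat 2 a = padicValNat 2 b → 2 ∣ a → 2 ∣ b := by
    intro a b ha hab h2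
    by_contra hb
    have h3 := one_le_padicValNat_of_dvd ha.ne' h2
    rw [hab, padicValNat.eq_zero_of_not_dvd hb] at h3
    omega
  refine ⟨_, p, q, rfl, hg, hp0, hq0, hp, hq, ?_, ?_, hc⟩
  · intro he
    have h2 := even_iff_two_dvd.mp he
    exact hnot ⟨h2, key p q hp0 hval h2⟩
  · intro he
    have h2 := even_iff_two_dvd.mp he
    exact hnot ⟨key q p hq0 hval.symm h2, h2⟩

theorem flip {j p : ℕ} (hp : ¬ Even p) (hj : p ≤ j) : Even (j - p) ↔ ¬ Even j := by
  rw [Nat.even_sub hj]
  constructor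
  · intro h he
    exact hp (h.mp he)
  · intro h
    exact ⟨fun h' => absurd h' h, fun h' => absurd h' hp⟩

theorem harmonic {u w : ℝ} (hu : 0 < u) (hw : 0 < w) :
    min u w ≤ 2 / (1 / u + 1 / w) ∧ 2 / (1 / u + 1 / w) ≤ (u + w) / 2 := by
  have e : 2 / (1 / u + 1 / w) = 2 * u * w / (u + w) := by field_simp; ring
  have hs : 0 < u + w := by positivity
  rw [e]
  constructor
  · rw [le_div_iff₀ hs]
    rcases le_total u w with h | h
    · rw [min_eq_left h]; nlinarith
    · rw [min_eq_right h]; nlinarith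
  · rw [div_le_iff₀ hs]; nlinarith [sq_nonneg (u - w)]

/-- In each residue class the (alternating) transform of a solution converges. -/
theorem class_limit {k l g p q : ℕ} (hg : 0 < g) (hp : 0 < p) (hq : 0 < q)
    (hkp : k + 1 = g * p) (hlq : l + 1 = g * q) (op : ¬ Even p) (oq : ¬ Even q)
    (hpq : Nat.Coprime p q) {X : ℕ → ℝ} (h : IsSolution k l X) (r : ℕ) :
    ∃ L : ℝ, 0 < L ∧
      Tendsto (fun j => if Even j then X (r + g * j) else 2 / X (r + g * j)) atTop (𝓝 L) := by
  obtain ⟨a, apos, hb⟩ := bounds h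
  have hXpos : ∀ n, 0 < X n := fun n => lt_of_lt_of_le apos (hb n).1
  have hrec : ∀ j, max k l + 1 ≤ j → X (r + g * j) =
      1 / X (r + g * (j - p)) + 1 / X (r + g * (j - q)) := by
    intro j hj
    have hpj : p ≤ j := by
      have : p ≤ g * p := Nat.le_mul_of_pos_left p hg
      omega
    have hqj : q ≤ j := by
      have : q ≤ g * q := Nat.le_mul_of_pos_left q hg
      omega
    have hgj : j ≤ g * j := Nat.le_mul_of_pos_left j hg
    have e0 := h.2 (r + g * j - (max k l + 1))
    have m1 : g * (j - p) = g * j - (k + 1) := by rw [Nat.mul_sub, hkp]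
    have m2 : g * (j - q) = g * j - (l + 1) := by rw [Nat.mul_sub, hlq]
    have e1 : r + g * j - (max k l + 1) + max k l + 1 = r + g * j := by omega
    have e2 : r + g * j - (max k l + 1) + max k l - k = r + g * (j - p) := by rw [m1]; omega
    have e3 : r + g * j - (max k l + 1) + max k l - l = r + g * (j - q) := by rw [m2]; omega
    rw [e1, e2, e3] at e0
    exact e0
  have hple : ∀ j, max k l + 1 ≤ j → p ≤ j ∧ q ≤ j := by
    intro j hj
    have h1 : p ≤ g * p := Nat.le_mul_of_pos_left p hg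
    have h2 : q ≤ g * q := Nat.le_mul_of_pos_left q hg
    omega
  set z : ℕ → ℝ := fun j => if Even j then X (r + g * j) else 2 / X (r + g * j) with hz
  have hzb : ∀ j, a ≤ z j ∧ z j ≤ 2 / a := by
    intro j
    simp only [hz]
    split_ifs
    · exact hb _
    · have h1 := hb (r + g * j)
      have h0 := hXpos (r + g * j)
      constructor
      · rw [le_div_iff₀ h0]
        have := h1.2
        rw [le_div_iff₀ apos] at this
        linarith [mul_comm a (X (r + g * j))]
      · exact div_le_div_of_nonneg_left (by norm_num) apos h1.1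
  have hkey : ∀ j, max k l + 1 ≤ j → min (z (j - p)) (z (j - q)) ≤ z j ∧
      z j ≤ (z (j - p) + z (j - q)) / 2 := by
    intro j hj
    obtain ⟨hpj, hqj⟩ := hple j hj
    have hr := hrec j hj
    have hu := hXpos (r + g * (j - p))
    have hw := hXpos (r + g * (j - q))
    by_cases he : Even j
    · have e1 : z j = X (r + g * j) := by simp only [hz]; rw [if_pos he]
      have n1 : ¬ Even (j - p) := fun h' => ((flip op hpj).mp h') he
      have n2 : ¬ Even (j - q) := fun h' => ((flip oq hqj).mp h') he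
      have e2 : z (j - p) = 2 / X (r + g * (j - p)) := by simp only [hz]; rw [if_neg n1]
      have e3 : z (j - q) = 2 / X (r + g * (j - q)) := by simp only [hz]; rw [if_neg n2]
      have e4 : z j = (z (j - p) + z (j - q)) / 2 := by rw [e1, e2, e3, hr]; ring
      refine ⟨?_, e4.le⟩
      rw [e4]
      rcases le_total (z (j - p)) (z (j - q)) with h' | h'
      · rw [min_eq_left h']; linarith
      · rw [min_eq_right h']; linarith
    · have e1 : z j = 2 / X (r + g * j) := by simp only [hz]; rw [if_neg he]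
      have n1 : Even (j - p) := (flip op hpj).mpr he
      have n2 : Even (j - q) := (flip oq hqj).mpr he
      have e2 : z (j - p) = X (r + g * (j - p)) := by simp only [hz]; rw [if_pos n1]
      have e3 : z (j - q) = X (r + g * (j - q)) := by simp only [hz]; rw [if_pos n2]
      rw [e1, e2, e3, hr]
      exact harmonic hu hw
  obtain ⟨L, hL, hT⟩ := mean_conv (N0 := max k l + 1) hp hq hpq hzb
    (fun n hn => ⟨(hple n hn).1, (hple n hn).2, (hkey n hn).1⟩) (fun n hn => (hkey n hn).2)
  exact ⟨L, lt_of_lt_of_le apos hL, hT⟩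

theorem block {g r j : ℕ} (hg : 0 < g) (hr : r < g) :
    (r + g * j) / g = j ∧ (r + g * j) % g = r := by
  constructor
  · rw [Nat.add_mul_div_left _ _ hg, Nat.div_eq_of_lt hr, Nat.zero_add]
  · rw [Nat.add_mul_mod_self_left, Nat.mod_eq_of_lt hr]

theorem scale_solution {k l g p q : ℕ} (hg : 0 < g)
    (hkp : k + 1 = g * p) (hlq : l + 1 = g * q) (op : ¬ Even p) (oq : ¬ Even q)
    {X : ℕ → ℝ} (h : IsSolution k l X) {c : ℕ → ℝ} (hc : ∀ r, 0 < c r) :
    IsSolution k l (scale g c X) := by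
  refine ⟨?_, ?_⟩
  · intro i hi
    have h1 := h.1 i hi
    have h2 := hc (i % g)
    simp only [scale]
    split_ifs <;> positivity
  · intro n
    have q1 : n + max k l + 1 = n + max k l - k + g * p := by omega
    have q2 : n + max k l + 1 = n + max k l - l + g * q := by omega
    have f1 : (n + max k l + 1) / g = (n + max k l - k) / g + p := by
      rw [q1, Nat.add_mul_div_left _ _ hg]
    have f2 : (n + max k l + 1) / g = (n + max k l - l) / g + q := by
      rw [q2, Nat.add_mul_div_left _ _ hg]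
    have r1 : (n + max k l - k) % g = (n + max k l + 1) % g := by
      rw [q1, Nat.add_mul_mod_self_left]
    have r2 : (n + max k l - l) % g = (n + max k l + 1) % g := by
      rw [q2, Nat.add_mul_mod_self_left]
    have hcr := hc ((n + max k l + 1) % g)
    simp only [scale]
    rw [h.2 n, r1, r2]
    by_cases he : Even ((n + max k l + 1) / g)
    · have g1 : ¬ Even ((n + max k l - k) / g) := by
        intro hh; rw [f1, Nat.even_add] at he; exact op (he.mp hh)
      have g2 : ¬ Even ((n + max k l - l) / g) := by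
        intro hh; rw [f2, Nat.even_add] at he; exact oq (he.mp hh)
      rw [if_pos he, if_neg g1, if_neg g2, one_div_div, one_div_div]
      ring
    · have g1 : Even ((n + max k l - k) / g) := by
        by_contra hh; rw [f1, Nat.even_add] at he
        exact he ⟨fun h' => absurd h' hh, fun h' => absurd h' op⟩
      have g2 : Even ((n + max k l - l) / g) := by
        by_contra hh; rw [f2, Nat.even_add] at he
        exact he ⟨fun h' => absurd h' hh, fun h' => absurd h' oq⟩
      rw [if_neg he, if_pos g1, if_pos g2]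
      ring

theorem other_pairs {k l : ℕ} (heq : padicValNat 2 (k + 1) = padicValNat 2 (l + 1))
    {X : ℕ → ℝ} (h : IsSolution k l X) :
    (∀ c : ℕ → ℝ, (∀ r, 0 < c r) → IsSolution k l (scale (Nat.gcd (k + 1) (l + 1)) c X)) ∧
    ∃ φ : ℕ → ℝ, (∀ r, 0 < φ r) ∧
      (∀ r < Nat.gcd (k + 1) (l + 1),
        Tendsto (fun j => X (r + 2 * Nat.gcd (k + 1) (l + 1) * j)) atTop (𝓝 (φ r)) ∧
        Tendsto (fun j => X (r + Nat.gcd (k + 1) (l + 1) + 2 * Nat.gcd (k + 1) (l + 1) * j))
          atTop (𝓝 (2 / φ r))) ∧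
      ∀ c : ℕ → ℝ, (∀ r, 0 < c r) →
        (Tendsto (scale (Nat.gcd (k + 1) (l + 1)) c X) atTop (𝓝 (√2)) ↔
          ∀ r < Nat.gcd (k + 1) (l + 1), c r * φ r = √2) := by
  obtain ⟨g, p, q, hgd, hg, hp, hq, hkp, hlq, op, oq, hpq⟩ := odd_parts heq
  rw [← hgd]
  refine ⟨fun c hc => scale_solution hg hkp hlq op oq h hc, ?_⟩
  have hlim := fun r => class_limit hg hp hq hkp hlq op oq hpq h r
  choose φ hφ hT using hlim
  have hXpos : ∀ n, 0 < X n := by
    obtain ⟨a, apos, hb⟩ := bounds h
    exact fun n => lt_of_lt_of_le apos (hb n).1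
  have t2 : Tendsto (fun j : ℕ => 2 * j) atTop atTop :=
    tendsto_atTop_mono (fun n => by simp only [id]; omega) tendsto_id
  have t3 : Tendsto (fun j : ℕ => 2 * j + 1) atTop atTop :=
    tendsto_atTop_mono (fun n => by simp only [id]; omega) tendsto_id
  have hodd : ∀ j : ℕ, ¬ Even (2 * j + 1) := fun j => by
    rw [Nat.not_even_iff_odd]; exact ⟨j, rfl⟩
  have even_lim : ∀ r, Tendsto (fun j => X (r + 2 * g * j)) atTop (𝓝 (φ r)) := by
    intro r
    refine ((hT r).comp t2).congr (fun j => ?_)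
    simp only [Function.comp]
    rw [if_pos (even_two_mul j)]
    congr 1; ring
  have odd_lim : ∀ r, Tendsto (fun j => X (r + g + 2 * g * j)) atTop (𝓝 (2 / φ r)) := by
    intro r
    have h1 : Tendsto (fun j => 2 / X (r + g * (2 * j + 1))) atTop (𝓝 (φ r)) := by
      refine ((hT r).comp t3).congr (fun j => ?_)
      simp only [Function.comp]
      rw [if_neg (hodd j)]
    have h2 : Tendsto (fun j => 2 / (2 / X (r + g * (2 * j + 1)))) atTop (𝓝 (2 / φ r)) :=
      tendsto_const_nhds.div h1 (hφ r).ne'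
    refine h2.congr (fun j => ?_)
    have e : r + g * (2 * j + 1) = r + g + 2 * g * j := by ring
    rw [e, div_div_cancel₀ (by norm_num : (2 : ℝ) ≠ 0)]
  refine ⟨φ, hφ, fun r _ => ⟨even_lim r, odd_lim r⟩, ?_⟩
  intro c hc
  constructor
  · intro hX r hr
    have h1 : Tendsto (fun j : ℕ => r + 2 * g * j) atTop atTop := by
      refine tendsto_atTop_mono (fun n => ?_) tendsto_id
      simp only [id]
      nlinarith
    have h2 := hX.comp h1
    have h3 : Tendsto (fun j => c r * X (r + 2 * g * j)) atTop (𝓝 (c r * φ r)) :=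
      (even_lim r).const_mul (c r)
    refine tendsto_nhds_unique (h3.congr (fun j => ?_)) h2
    simp only [Function.comp, scale]
    have e : r + 2 * g * j = r + g * (2 * j) := by ring
    rw [e, (block hg hr).1, (block hg hr).2, if_pos (even_two_mul j)]
  · intro hall
    refine classes hg (fun r hr => ?_)
    have h1 : Tendsto (fun j => c r * (if Even j then X (r + g * j) else 2 / X (r + g * j)))
        atTop (𝓝 (√2)) := by
      rw [← hall r hr]
      exact (hT r).const_mul (c r)
    have h2 : Tendsto (fun j => 2 / (c r * (if Even j then X (r + g * j) else 2 / X (r + g * j))))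
        atTop (𝓝 (√2)) := by
      have := (tendsto_const_nhds (x := (2 : ℝ))).div h1 (by positivity)
      rwa [Real.div_sqrt] at this
    have h3 := Filter.Tendsto.if' (p := fun j : ℕ => Even j) h1 h2
    refine h3.congr (fun j => ?_)
    simp only [scale]
    rw [(block hg hr).1, (block hg hr).2]
    by_cases he : Even j
    · rw [if_pos he, if_pos he, if_pos he]
    · rw [if_neg he, if_neg he, if_neg he]
      have := hXpos (r + g * j)
      have := hc r
      field_simp

/-- Main theorem, with `g = gcd (k + 1) (l + 1)`. -/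
theorem result (k l : ℕ) :
    ((∀ X : ℕ → ℝ, IsSolution k l X → Tendsto X atTop (𝓝 (√2))) ↔
      padicValNat 2 (k + 1) ≠ padicValNat 2 (l + 1)) ∧
    (padicValNat 2 (k + 1) = padicValNat 2 (l + 1) → ∀ X : ℕ → ℝ, IsSolution k l X →
      (∀ c : ℕ → ℝ, (∀ r, 0 < c r) → IsSolution k l (scale (Nat.gcd (k + 1) (l + 1)) c X)) ∧
      ∃ φ : ℕ → ℝ, (∀ r, 0 < φ r) ∧
        (∀ r < Nat.gcd (k + 1) (l + 1),
          Tendsto (fun j => X (r + 2 * Nat.gcd (k + 1) (l + 1) * j)) atTop (𝓝 (φ r)) ∧
          Tendsto (fun j => X (r + Nat.gcd (k + 1) (l + 1) + 2 * Nat.gcd (k + 1) (l + 1) * j))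
            atTop (𝓝 (2 / φ r))) ∧
        ∀ c : ℕ → ℝ, (∀ r, 0 < c r) →
          (Tendsto (scale (Nat.gcd (k + 1) (l + 1)) c X) atTop (𝓝 (√2)) ↔
            ∀ r < Nat.gcd (k + 1) (l + 1), c r * φ r = √2)) := by
  refine ⟨⟨?_, ?_⟩, ?_⟩
  · intro h heq
    obtain ⟨X, hX, hn⟩ := periodic heq
    exact hn (h X hX)
  · intro hne X hX
    exact converge hX hne
  · intro heq X hX
    exact other_pairs heq hX

end Pool.Agent.Results.MP_247194_an.GlobalConvergence
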